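import Pool.Agent.H37.CNZ.Stmts

/-!
# Board `cnz`, row CJC: the conductor does not depend on the place at infinity
-/

set_option autoImplicit false

namespace Pool.CND

open Polynomial

theorem cjc_aeval {k L : Type} [Field k] [Field L] [Algebra k L] (P : Place k L) {t : L}
    (ht : P.ord t < 0) (ht0 : t ≠ 0) : ∀ (n : ℕ) (f : Polynomial k), f.natDegree ≤ n → f ≠ 0 →
    aeval t f ≠ 0 ∧ P.ord (aeval t f) = f.natDegree * P.ord t := by
  intro n
  induction n with
  | zero =>
    intro f hf h0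
    have h1 : f.natDegree = 0 := by omega
    rw [natDegree_eq_zero] at h1
    obtain ⟨c, rfl⟩ := h1
    have hc : c ≠ 0 := by
      rintro rfl
      exact h0 (by simp)
    rw [aeval_C, natDegree_C]
    refine ⟨by rw [Ne, map_eq_zero]; exact hc, ?_⟩
    rw [P.ord_const c hc]
    simp
  | succ n ih =>
    intro f hf h0
    have hlc : f.leadingCoeff ≠ 0 := leadingCoeff_ne_zero.2 h0
    have hsplit : aeval t f = algebraMap k L f.leadingCoeff * t ^ f.natDegree
        + aeval t f.eraseLead := by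
      conv_lhs => rw [← f.eraseLead_add_C_mul_X_pow]
      rw [map_add, map_mul, aeval_C, map_pow, aeval_X, add_comm]
    have hne : algebraMap k L f.leadingCoeff * t ^ f.natDegree ≠ 0 :=
      mul_ne_zero (by rw [Ne, map_eq_zero]; exact hlc) (pow_ne_zero _ ht0)
    have hord : P.ord (algebraMap k L f.leadingCoeff * t ^ f.natDegree)
        = f.natDegree * P.ord t := by
      rw [P.ord_mul _ _ (by rw [Ne, map_eq_zero]; exact hlc) (pow_ne_zero _ ht0),
        P.ord_const _ hlc, P.ord_pow ht0, zero_add]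
    have hge : P.Ge (aeval t f.eraseLead)
        (P.ord (algebraMap k L f.leadingCoeff * t ^ f.natDegree) + 1) := by
      by_cases hE : f.eraseLead = 0
      · rw [hE, map_zero]
        exact P.ge_zero _
      · have hd : f.eraseLead.natDegree < f.natDegree := by
          rcases eraseLead_natDegree_lt_or_eraseLead_eq_zero f with h | h
          · exact h
          · exact absurd h hE
        obtain ⟨h1, h2⟩ := ih f.eraseLead (by omega) hE
        refine Or.inr ?_
        rw [h2, hord]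
        have h3 : ((f.eraseLead.natDegree : ℕ) : ℤ) + 1 ≤ (f.natDegree : ℤ) := by
          exact_mod_cast hd
        nlinarith
    obtain ⟨h4, h5⟩ := P.ord_add_of_lt hne hge
    rw [hsplit]
    exact ⟨h4, h5.trans hord⟩

theorem cjc_ord {k L : Type} [Field k] [Field L] [Algebra k L] (P P' : Place k L) {t z : L}
    (ht : P.ord t < 0) (ht' : P'.ord t < 0) (ht0 : t ≠ 0)
    (hz : z ∈ IntermediateField.adjoin k {t}) (hz0 : z ≠ 0) (h : P.ord z = 0) :
    P'.ord z = 0 := by
  obtain ⟨r, s, hrs⟩ := (IntermediateField.mem_adjoin_simple_iff k z).1 hz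
  have hr : r ≠ 0 := by
    rintro rfl
    exact hz0 (by rw [hrs, map_zero, zero_div])
  have hs : s ≠ 0 := by
    rintro rfl
    exact hz0 (by rw [hrs, map_zero, div_zero])
  obtain ⟨a1, a2⟩ := cjc_aeval P ht ht0 _ r le_rfl hr
  obtain ⟨b1, b2⟩ := cjc_aeval P ht ht0 _ s le_rfl hs
  obtain ⟨c1, c2⟩ := cjc_aeval P' ht' ht0 _ r le_rfl hr
  obtain ⟨d1, d2⟩ := cjc_aeval P' ht' ht0 _ s le_rfl hs
  rw [hrs, P.ord_div a1 b1, a2, b2, ← sub_mul] at h
  have h1 : ((r.natDegree : ℕ) : ℤ) - (s.natDegree : ℤ) = 0 := by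
    rcases mul_eq_zero.1 h with h1 | h1
    · exact h1
    · omega
  rw [hrs, P'.ord_div c1 d1, c2, d2, ← sub_mul, h1, zero_mul]

theorem cjc_ram {k L G : Type} [Field k] [Field L] [Algebra k L] [Group G]
    (ρ : G →* (L ≃ₐ[k] L)) (P P' : Place k L) (c : G)
    (h : ∀ z : L, z ≠ 0 → P'.ord z = P.ord (ρ c z)) (i : ℕ) (g : G) (hg : g ∈ ram P' ρ i) :
    c * g * c⁻¹ ∈ ram P ρ i := by
  have hcc : ∀ x : L, ρ c (ρ c⁻¹ x) = x := by
    intro x
    rw [← AlgEquiv.mul_apply, ← map_mul, mul_inv_cancel, map_one, AlgEquiv.one_apply]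
  have hne : ∀ (a : G) (x : L), x ≠ 0 → ρ a x ≠ 0 := by
    intro a x hx h0
    exact hx ((ρ a).injective (by rw [h0, map_zero]))
  have hact : ∀ x : L, ρ (c * g * c⁻¹) x = ρ c (ρ g (ρ c⁻¹ x)) := by
    intro x
    rw [map_mul, map_mul, AlgEquiv.mul_apply, AlgEquiv.mul_apply]
  obtain ⟨h1, h2⟩ := hg
  refine ⟨?_, ?_⟩
  · intro x hx
    have hx' := hne c⁻¹ x hx
    rw [hact, ← h _ (hne g _ hx'), h1 _ hx', h _ hx', hcc]
  · intro u hu hu1
    have hu' := hne c⁻¹ u hu
    have hv : P'.ord (ρ c⁻¹ u) = 1 := by rw [h _ hu', hcc, hu1]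
    have hdiff : ρ (c * g * c⁻¹) u - u = ρ c (ρ g (ρ c⁻¹ u) - ρ c⁻¹ u) := by
      rw [hact, map_sub, hcc]
    rcases h2 _ hu' hv with h3 | h3
    · left
      rw [hact, h3, hcc]
    · by_cases h0 : ρ g (ρ c⁻¹ u) - ρ c⁻¹ u = 0
      · left
        rw [h0, map_zero] at hdiff
        exact sub_eq_zero.1 hdiff
      · right
        rw [hdiff, ← h _ h0]
        exact h3

theorem cjc_thm (hT : S_TRV) : S_CJC := by
  intro k L G _ _ _ _ _ ρ t P P' c hcov hP hP' hc
  have ht0 : t ≠ 0 := by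
    intro h
    apply hcov.trans
    rw [h]
    exact isAlgebraic_zero
  obtain ⟨a, -, ha⟩ := hT k L G ρ ⊤ P P' (by
    intro z hz hfix h0
    exact cjc_ord P P' hP hP' ht0 ((hcov.fixed z).1 fun g => hfix g (Subgroup.mem_top g)) hz h0)
  have ha' : ∀ z : L, z ≠ 0 → P.ord z = P'.ord (ρ a⁻¹ z) := by
    intro z hz
    have h0 : ρ a⁻¹ z ≠ 0 := fun h0 => hz ((ρ a⁻¹).injective (by rw [h0, map_zero]))
    rw [ha _ h0, ← AlgEquiv.mul_apply, ← map_mul, mul_inv_cancel, map_one, AlgEquiv.one_apply]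
  have hset : ∀ i, ram P' ρ i = (fun g => a⁻¹ * g * a) '' ram P ρ i := by
    intro i
    ext g
    constructor
    · intro hg
      refine ⟨a * g * a⁻¹, cjc_ram ρ P P' a ha i g hg, ?_⟩
      show a⁻¹ * (a * g * a⁻¹) * a = g
      group
    · rintro ⟨g', hg', rfl⟩
      have := cjc_ram ρ P' P a⁻¹ ha' i g' hg'
      rwa [inv_inv] at this
  have hinj : Function.Injective (fun g => a⁻¹ * g * a) := by
    intro x y hxy
    exact mul_left_cancel (mul_right_cancel hxy)
  have hone : ∀ i, ram P' ρ i = {1} ↔ ram P ρ i = {1} := by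
    intro i
    rw [hset]
    constructor
    · intro h
      have h1 : (fun g => a⁻¹ * g * a) '' ram P ρ i = (fun g => a⁻¹ * g * a) '' {1} := by
        rw [h, Set.image_singleton]
        simp
      exact hinj.image_injective h1
    · intro h
      rw [h, Set.image_singleton]
      simp
  have hcard : ∀ i, (ram P' ρ i).ncard = (ram P ρ i).ncard := by
    intro i
    rw [hset, Set.ncard_image_of_injective _ hinj]
  obtain ⟨l, h1, h2, h3⟩ := hc
  refine ⟨l, fun h => h1 ((hone l).1 h), (hone _).2 h2, ?_⟩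
  rw [h3, hcard]
  congr 1
  refine Finset.sum_congr rfl fun i _ => ?_
  rw [hcard]

end Pool.CND
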