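import Pool.Agent.H37.CNZ.Stmts

/-!
# Board `cnz`, row CMU: the compositum is a cover
-/

set_option autoImplicit false

namespace Pool.CND

theorem cmu_fix (hR : S_RSP) {k L L₁ G G₁ : Type} [Field k] [Field L] [Algebra k L] [Field L₁]
    [Algebra k L₁] [Group G] [Group G₁] (ρ : G →* (L ≃ₐ[k] L)) (ρ₁ : G₁ →* (L₁ ≃ₐ[k] L₁))
    (π : G →* G₁) (j : L₁ →ₐ[k] L) (t₁ : L₁) (h₁ : IsCover ρ₁ t₁) (q : Quo ρ ρ₁ π j)
    (P : Place k L) (hP : 0 ≤ P.ord (j t₁)) (g : G) (hg : Fixes P (ρ g)) : π g = 1 := by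
  have ht0 : t₁ ≠ 0 := by
    rintro h
    apply h₁.trans
    rw [h]
    exact isAlgebraic_zero
  obtain ⟨e, P₁, he, hord⟩ := hR k L₁ L j P t₁ h₁.trans
  have he0 : (0 : ℤ) < (e : ℤ) := by exact_mod_cast he
  have h2 : 0 ≤ P₁.ord t₁ := by
    have h3 := hord t₁ ht0
    rw [← h3] at hP
    exact nonneg_of_mul_nonneg_right hP he0
  apply h₁.unram P₁ h2
  intro x hx
  have hx1 : ρ₁ (π g) x ≠ 0 := by
    intro h
    apply hx
    exact (ρ₁ (π g)).injective (by rw [h, map_zero])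
  have h4 := hord _ hx1
  have h5 := hord x hx
  have hjx : j x ≠ 0 := (map_ne_zero j).2 hx
  rw [← q.eqv g x, hg _ hjx, ← h5] at h4
  exact mul_left_cancel₀ he0.ne' h4

theorem cmu_thm (hR : S_RSP) : S_CMU := by
  intro k L L₁ L₂ G₁ G₂ _ _ _ _ _ _ _ _ _ _ _ ρ₁ ρ₂ t₁ t₂ j₁ j₂ Γ ρ h₁ h₂ ht hinj hfix q₁ q₂
  refine ⟨hinj, ?_, hfix, ?_⟩
  · exact fun h => h₁.trans ((isAlgebraic_algHom_iff j₁ j₁.toRingHom.injective).1 h)
  · intro P hP g hg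
    have e1 := cmu_fix hR ρ ρ₁ _ j₁ t₁ h₁ q₁ P hP g hg
    have e2 := cmu_fix hR ρ ρ₂ _ j₂ t₂ h₂ q₂ P (by rw [← ht]; exact hP) g hg
    apply Subtype.ext
    exact Prod.ext e1 e2

end Pool.CND
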