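import Pool.Agent.H37.CNZ.Stmts
import Pool.Agent.H14.CNH.UQT

/-!
# Board `cnz`, row UQM: `U` of a quotient is at most `U`
-/

set_option autoImplicit false

namespace Pool.CND

open Finset H14UQT in
open scoped Classical in
theorem uqm_thm : S_UQM := by
  intro G _ _ b B N I l g₀ hU hNI hnorm hB hl hg0 hg0N
  set T0 : ℤ := ∑ n, if n ∈ N ∧ n ≠ 1 then b n else 0 with hT0
  have hcard : 0 < (Nat.card N : ℤ) := by
    have : 0 < Nat.card N := Nat.card_pos
    exact_mod_cast this
  have hcos : ∀ g ∈ I, g ∉ N →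
      b g + (∑ n, if n ∈ N ∧ n ≠ 1 then b (g * n) else 0) = Nat.card N * B g := by
    intro g hg hgN
    rw [← hB g hg hgN, coset_sum, split_one (fun n => b (g * n)) N, mul_one]
  have hne : ∀ g, g ∉ N → ∀ n ∈ N, g * n ≠ 1 ∧ g * n ∉ N := by
    intro g hg n hn
    have : g * n ∉ N := by
      intro h
      apply hg
      have := N.mul_mem h (N.inv_mem hn)
      simpa using this
    exact ⟨fun h => this (h ▸ N.one_mem), this⟩
  have hle : ∀ g ∈ I, g ∉ N → (Nat.card N : ℤ) * B g ≤ l + T0 := by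
    intro g hg hgN
    obtain ⟨g', hg', hmax⟩ := Finset.exists_max_image (univ.filter (fun x => g⁻¹ * x ∈ N)) b
      ⟨g, by simp [N.one_mem]⟩
    have hg'2 : g⁻¹ * g' ∈ N := by simpa using hg'
    have hg'e : g' = g * (g⁻¹ * g') := by group
    have hg'I : g' ∈ I := by
      rw [hg'e]
      exact I.mul_mem hg (hNI hg'2)
    have hg'N : g' ∉ N := by
      rw [hg'e]
      exact (hne g hgN _ hg'2).2
    have hg'1 : g' ≠ 1 := fun h => hg'N (h ▸ N.one_mem)
    have hset : {x | g'⁻¹ * x ∈ N} = {x | g⁻¹ * x ∈ N} := by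
      ext x
      have e1 : g⁻¹ * x = (g⁻¹ * g') * (g'⁻¹ * x) := by group
      constructor
      · intro h
        show g⁻¹ * x ∈ N
        rw [e1]
        exact N.mul_mem hg'2 h
      · intro h
        have h2 : g⁻¹ * x ∈ N := h
        rw [e1] at h2
        exact (N.mul_mem_cancel_left hg'2).mp h2
    have h1 := hB g' hg'I hg'N
    rw [hset, hB g hg hgN] at h1
    have h2 := hcos g' hg'I hg'N
    have h3 : (∑ n, if n ∈ N ∧ n ≠ 1 then b (g' * n) else 0) ≤ T0 := by
      refine Finset.sum_le_sum fun n _ => ?_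
      by_cases h : n ∈ N ∧ n ≠ 1
      · rw [if_pos h, if_pos h]
        obtain ⟨h4, h5⟩ := h
        obtain ⟨h6, -⟩ := hne g' hg'N n h4
        have h7 := hU.mul g'⁻¹ (I.inv_mem hg'I) (g' * n) (I.mul_mem hg'I (hNI h4))
          (inv_ne_one.mpr hg'1) h6 (by simpa using h5)
        rw [inv_mul_cancel_left, hU.inv g' hg'I hg'1] at h7
        have h8 : b (g' * n) ≤ b g' := by
          apply hmax
          simp only [Finset.mem_filter, Finset.mem_univ, true_and]
          rw [← mul_assoc]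
          exact N.mul_mem hg'2 h4
        rw [min_eq_right h8] at h7
        exact h7
      · rw [if_neg h, if_neg h]
    have h4 := hl.le g' hg'I hg'1
    rw [h1, ← h2]
    exact add_le_add h4 h3
  have hsplit : sm b {g | g ∈ I ∧ g ≠ 1} = T0 + sm b {g | g ∈ I ∧ g ∉ N} := by
    rw [sm_eq, sm_eq, hT0, ← Finset.sum_add_distrib]
    refine Finset.sum_congr rfl fun g _ => ?_
    by_cases h1 : g ∈ N
    · have h2 := hNI h1
      by_cases h3 : g = 1 <;> simp [h1, h2, h3]
    · have h3 : g ≠ 1 := fun h => h1 (h ▸ N.one_mem)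
      by_cases h2 : g ∈ I <;> simp [h1, h2, h3]
  have hdouble : (Nat.card N : ℤ) * sm B {g | g ∈ I ∧ g ∉ N}
      = Nat.card N * sm b {g | g ∈ I ∧ g ∉ N} := by
    have hl1 : (Nat.card N : ℤ) * sm B {g | g ∈ I ∧ g ∉ N} =
        ∑ g, ∑ x, if (g ∈ I ∧ g ∉ N) ∧ g⁻¹ * x ∈ N then b x else 0 := by
      rw [sm_eq, Finset.mul_sum]
      refine Finset.sum_congr rfl fun g _ => ?_
      by_cases h : g ∈ I ∧ g ∉ N
      · have h2 : g ∈ {g | g ∈ I ∧ g ∉ N} := h
        rw [if_pos h2, ← hB g h.1 h.2, sm_eq]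
        refine Finset.sum_congr rfl fun x _ => ?_
        simp [h]
      · have h2 : g ∉ {g | g ∈ I ∧ g ∉ N} := h
        rw [if_neg h2, mul_zero]
        symm
        refine Finset.sum_eq_zero fun x _ => ?_
        rw [if_neg (fun h3 => h h3.1)]
    rw [hl1, Finset.sum_comm, sm_eq, Finset.mul_sum]
    refine Finset.sum_congr rfl fun x _ => ?_
    by_cases h : x ∈ I ∧ x ∉ N
    · have h2 : x ∈ {g | g ∈ I ∧ g ∉ N} := h
      rw [if_pos h2, ← sum_coset_const N x (b x)]
      refine Finset.sum_congr rfl fun g _ => ?_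
      have h3 : ((g ∈ I ∧ g ∉ N) ∧ g⁻¹ * x ∈ N) ↔ x⁻¹ * g ∈ N := by
        constructor
        · rintro ⟨-, h4⟩
          have := N.inv_mem h4
          simpa using this
        · intro h4
          have e : g = x * (x⁻¹ * g) := by group
          refine ⟨⟨?_, ?_⟩, ?_⟩
          · rw [e]
            exact I.mul_mem h.1 (hNI h4)
          · rw [e]
            exact (hne x h.2 _ h4).2
          · have := N.inv_mem h4
            simpa using this
      simp only [h3]
    · have h2 : x ∉ {g | g ∈ I ∧ g ∉ N} := h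
      rw [if_neg h2, mul_zero]
      refine Finset.sum_eq_zero fun g _ => ?_
      rw [if_neg]
      rintro ⟨⟨h3, h4⟩, h5⟩
      apply h
      have e : x = g * (g⁻¹ * x) := by group
      refine ⟨?_, ?_⟩
      · rw [e]
        exact I.mul_mem h3 (hNI h5)
      · rw [e]
        exact (hne g h4 _ h5).2
  have hBb : sm B {g | g ∈ I ∧ g ∉ N} = sm b {g | g ∈ I ∧ g ∉ N} :=
    mul_left_cancel₀ hcard.ne' hdouble
  have hI : (Nat.card I : ℚ) ≠ 0 := by
    have : 0 < Nat.card I := Nat.card_pos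
    exact_mod_cast this.ne'
  unfold U
  rw [mul_div_cancel₀ _ hI, hsplit, hBb]
  have h9 : ((Nat.card N * B g₀ : ℤ) : ℚ) ≤ ((l + T0 : ℤ) : ℚ) := by
    exact_mod_cast hle g₀ hg0 hg0N
  push_cast at h9 ⊢
  linarith

end Pool.CND
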